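import Pool.Agent.Helper54.SL.Defs
import Pool.Agent.Helper54.PW.Final
import Pool.Agent.Helper21.SL.Cover
import Pool.Agent.Helper93.SL.FinitePlace
import Pool.Agent.Helper87.SL.Degree

/-!
# SL-12: the order of the Galois group over `k(X)`
-/

set_option autoImplicit false
open scoped Pointwise
open Pool.Agent.Helper54.PW

namespace Pool.Agent.Helper54.SL

namespace Index

open Polynomial

/-- the valuation of a polynomial in an element of the maximal ideal -/
theorem val_aeval {k F : Type} [Field k] [Field F] [Algebra k F] (A : ValuationSubring F)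
    (hk : ∀ c : k, algebraMap k F c ∈ A) {t : F} (ht : t ∈ A.nonunits) (P : k[X]) (hP : P ≠ 0) :
    A.valuation (aeval t P) = A.valuation t ^ P.natTrailingDegree := by
  have ht1 : A.valuation t < 1 := (ValuationSubring.mem_nonunits_iff A).mp ht
  obtain ⟨Q, hQ⟩ : X ^ P.natTrailingDegree ∣ P :=
    X_pow_dvd_iff.mpr fun d hd => coeff_eq_zero_of_lt_natTrailingDegree hd
  have hQ0 : Q.coeff 0 ≠ 0 := by
    have h1 : P.coeff P.natTrailingDegree = Q.coeff 0 := by
      have h2 := congrArg (fun R : k[X] => R.coeff P.natTrailingDegree) hQ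
      have h3 := coeff_X_pow_mul Q P.natTrailingDegree 0
      rw [zero_add] at h3
      exact h2.trans h3
    rw [← h1]
    exact mt trailingCoeff_eq_zero.mp hP
  have h3 : A.valuation (aeval t Q) = 1 := by
    have h4 : aeval t Q = t * aeval t Q.divX + algebraMap k F (Q.coeff 0) := by
      conv_lhs => rw [← Q.X_mul_divX_add]
      rw [map_add, map_mul, aeval_X, aeval_C]
    have h5 : A.valuation (t * aeval t Q.divX) < 1 := by
      have h6 : aeval t Q.divX ∈ A := by
        rw [aeval_eq_sum_range]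
        refine sum_mem fun i _ => ?_
        rw [Algebra.smul_def]
        exact A.mul_mem _ _ (hk _) (pow_mem (A.nonunits_subset ht) i)
      rw [map_mul]
      exact mul_lt_one_of_lt_of_le ht1 ((A.valuation_le_one_iff _).mpr h6)
    rw [h4, Valuation.map_add_eq_of_lt_right]
    · exact val_const A hk _ hQ0
    · rw [val_const A hk _ hQ0]
      exact h5
  conv_lhs => rw [hQ]
  rw [map_mul, map_pow, aeval_X, map_mul, map_pow, h3, mul_one]

/-- the property `FF` passes to subfields -/
theorem ff_sub {k L' L : Type} [Field k] [Field L'] [Field L] [Algebra k L'] [Algebra k L]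
    [Algebra L' L] [IsScalarTower k L' L] (h : FF k L) : FF k L' := by
  intro x y hx
  have hx' : Transcendental k (algebraMap L' L x) := by
    intro h1
    apply hx
    exact (isAlgebraic_algebraMap_iff (algebraMap L' L).injective).mp h1
  have h1 := h (algebraMap L' L x) (algebraMap L' L y) hx'
  have hmem : ∀ z : IntermediateField.adjoin k {x},
      algebraMap L' L z ∈ IntermediateField.adjoin k {algebraMap L' L x} := by
    intro z
    have h2 : IntermediateField.adjoin k {algebraMap L' L x} =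
        (IntermediateField.adjoin k {x}).map (IsScalarTower.toAlgHom k L' L) := by
      rw [IntermediateField.adjoin_map, Set.image_singleton]
      rfl
    rw [h2]
    exact ⟨z, z.2, rfl⟩
  let f : IntermediateField.adjoin k {x} →+* IntermediateField.adjoin k {algebraMap L' L x} :=
    ((algebraMap L' L).comp (algebraMap (IntermediateField.adjoin k {x}) L')).codRestrict
      (IntermediateField.adjoin k {algebraMap L' L x}).toSubalgebra.toSubring hmem
  have hf : Function.Surjective f := by
    rintro ⟨z, hz⟩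
    have h2 : IntermediateField.adjoin k {algebraMap L' L x} =
        (IntermediateField.adjoin k {x}).map (IsScalarTower.toAlgHom k L' L) := by
      rw [IntermediateField.adjoin_map, Set.image_singleton]
      rfl
    rw [h2] at hz
    obtain ⟨w, hw, rfl⟩ := hz
    exact ⟨⟨w, hw⟩, rfl⟩
  exact IsAlgebraic.of_ringHom_of_comp_eq f (algebraMap L' L) h1 hf (algebraMap L' L).injective
    (by rfl)

/-- elements of `k(T)` have valuation a power of the valuation of `T` -/
theorem val_adjoin {k K0 L : Type} [Field k] [Field K0] [Field L] [Algebra k K0] [Algebra k L]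
    [Algebra K0 L] [IsScalarTower k K0 L] (A : ValuationSubring L)
    (hk : ∀ c : k, algebraMap k L c ∈ A) (T : K0)
    (hK : IntermediateField.adjoin k {T} = ⊤) (ht : algebraMap K0 L T ∈ A.nonunits) (g : K0)
    (hg : g ≠ 0) : ∃ z : ℤ, A.valuation (algebraMap K0 L g) =
      A.valuation (algebraMap K0 L T) ^ z := by
  have h1 : g ∈ IntermediateField.adjoin k {T} := by
    rw [hK]
    exact IntermediateField.mem_top
  rw [IntermediateField.mem_adjoin_simple_iff] at h1
  obtain ⟨r, s, hrs⟩ := h1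
  have hr : r ≠ 0 := by
    rintro rfl
    exact hg (by rw [hrs, map_zero, zero_div])
  have hs : s ≠ 0 := by
    rintro rfl
    exact hg (by rw [hrs, map_zero, div_zero])
  have e : ∀ P : k[X], algebraMap K0 L (aeval T P) = aeval (algebraMap K0 L T) P := fun P =>
    (aeval_algebraMap_apply L T P).symm
  refine ⟨(r.natTrailingDegree : ℤ) - s.natTrailingDegree, ?_⟩
  have hT0 : A.valuation (algebraMap K0 L T) ≠ 0 ∨ A.valuation (algebraMap K0 L T) = 0 :=
    ne_or_eq _ _
  rcases hT0 with hT0 | hT0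
  · rw [hrs, map_div₀, map_div₀, e, e, val_aeval A hk ht r hr, val_aeval A hk ht s hs,
      zpow_sub₀ hT0, zpow_natCast, zpow_natCast]
  · -- `T = 0`
    have hT : T = 0 := by
      have := (map_eq_zero A.valuation).mp hT0
      exact (map_eq_zero (algebraMap K0 L)).mp this
    subst hT
    have h2 : g = algebraMap k K0 (r.coeff 0 / s.coeff 0) := by
      rw [hrs, map_div₀, aeval_def, aeval_def, eval₂_at_zero, eval₂_at_zero]
    have h3 : r.coeff 0 / s.coeff 0 ≠ 0 := by
      intro h4
      exact hg (by rw [h2, h4, map_zero])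
    have hr0 : r.coeff 0 ≠ 0 := fun h4 => h3 (by rw [h4, zero_div])
    have hs0 : s.coeff 0 ≠ 0 := fun h4 => h3 (by rw [h4, div_zero])
    have h5 : r.natTrailingDegree = 0 := natTrailingDegree_eq_zero.mpr (Or.inr hr0)
    have h6 : s.natTrailingDegree = 0 := natTrailingDegree_eq_zero.mpr (Or.inr hs0)
    rw [h5, h6, h2, ← IsScalarTower.algebraMap_apply, val_const A hk _ h3]
    simp

/-- ramification gives a lower bound for the degree -/
theorem le_finrank {E L : Type} [Field E] [Field L] [Algebra E L] [FiniteDimensional E L]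
    (A : ValuationSubring L) (x : L) (hx0 : x ≠ 0) (hx : x ∈ A.nonunits) (κ : ℕ)
    (h : ∀ f : E, f ≠ 0 → ∃ z : ℤ, A.valuation (algebraMap E L f) = A.valuation x ^ (κ * z)) :
    κ ≤ Module.finrank E L := by
  classical
  have hx1 : A.valuation x < 1 := (ValuationSubring.mem_nonunits_iff A).mp hx
  have hxv : A.valuation x ≠ 0 := (Valuation.ne_zero_iff _).mpr hx0
  have hli : LinearIndependent E (fun i : Fin κ => x ^ (i : ℕ)) := by
    rw [Fintype.linearIndependent_iff]
    intro g hg
    by_contra hcon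
    push Not at hcon
    obtain ⟨i1, hi1⟩ := hcon
    let S : Finset (Fin κ) := Finset.univ.filter (fun i => g i ≠ 0)
    have hS : S.Nonempty := ⟨i1, by simp [S, hi1]⟩
    have hval : ∀ i ∈ S, ∃ z : ℤ, A.valuation (g i • x ^ (i : ℕ)) =
        A.valuation x ^ ((κ : ℤ) * z + (i : ℕ)) := by
      intro i hi
      have hgi : g i ≠ 0 := (Finset.mem_filter.mp hi).2
      obtain ⟨z, hz⟩ := h (g i) hgi
      refine ⟨z, ?_⟩
      rw [Algebra.smul_def, map_mul, map_pow, hz, zpow_add₀ hxv, zpow_natCast]
    have hinj : ∀ i ∈ S, ∀ j ∈ S, i ≠ j →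
        A.valuation (g i • x ^ (i : ℕ)) ≠ A.valuation (g j • x ^ (j : ℕ)) := by
      intro i hi j hj hij heq
      obtain ⟨z, hz⟩ := hval i hi
      obtain ⟨z', hz'⟩ := hval j hj
      rw [hz, hz'] at heq
      have h1 : (κ : ℤ) * z + (i : ℕ) = (κ : ℤ) * z' + (j : ℕ) :=
        zpow_right_injective₀ (zero_lt_iff.mpr hxv) hx1.ne heq
      have h2 : ((i : ℕ) : ℤ) ≡ ((j : ℕ) : ℤ) [ZMOD κ] := by
        refine Int.modEq_iff_dvd.mpr ⟨z - z', ?_⟩
        linear_combination -h1
      have h3 : (i : ℕ) ≡ (j : ℕ) [MOD κ] := (Int.natCast_modEq_iff).mp h2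
      have h4 : (i : ℕ) = j := by
        have h5 := h3
        unfold Nat.ModEq at h5
        rwa [Nat.mod_eq_of_lt i.2, Nat.mod_eq_of_lt j.2] at h5
      exact hij (Fin.ext h4)
    obtain ⟨i0, hi0, hmax⟩ := S.exists_max_image (fun i => A.valuation (g i • x ^ (i : ℕ))) hS
    have hsum : ∑ i, g i • x ^ (i : ℕ) = g i0 • x ^ (i0 : ℕ) +
        ∑ i ∈ S.erase i0, g i • x ^ (i : ℕ) := by
      rw [Finset.add_sum_erase S (fun i => g i • x ^ (i : ℕ)) hi0]
      symm
      apply Finset.sum_subset (Finset.subset_univ _)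
      intro i _ hi
      have : g i = 0 := by
        by_contra hne
        exact hi (Finset.mem_filter.mpr ⟨Finset.mem_univ _, hne⟩)
      rw [this, zero_smul]
    have hv0 : A.valuation (g i0 • x ^ (i0 : ℕ)) ≠ 0 := by
      obtain ⟨z, hz⟩ := hval i0 hi0
      rw [hz]
      exact zpow_ne_zero _ hxv
    have hlt : A.valuation (∑ i ∈ S.erase i0, g i • x ^ (i : ℕ)) <
        A.valuation (g i0 • x ^ (i0 : ℕ)) := by
      apply Valuation.map_sum_lt _ hv0
      intro i hi
      have hi' := Finset.mem_of_mem_erase hi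
      exact lt_of_le_of_ne (hmax i hi') (hinj i hi' i0 hi0 (Finset.ne_of_mem_erase hi))
    have h1 : A.valuation (∑ i, g i • x ^ (i : ℕ)) = A.valuation (g i0 • x ^ (i0 : ℕ)) := by
      rw [hsum]
      exact Valuation.map_add_eq_of_lt_left _ hlt
    rw [hg, map_zero] at h1
    exact hv0 h1.symm
  simpa using hli.fintype_card_le_finrank

/-- a place over `X = 0` -/
theorem exists_place_zero (k L : Type) [Field k] [Field L] [Algebra k L] [Algebra (RatFunc k) L]
    [IsScalarTower k (RatFunc k) L] :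
    ∃ A : ValuationSubring L, IsPlace k A ∧ tX k L ∈ A.nonunits := by
  let v := (Polynomial.idealX k).valuation (RatFunc k)
  let B : ValuationSubring (RatFunc k) := v.valuationSubring
  have hX : v RatFunc.X < 1 := by
    rw [← RatFunc.algebraMap_X]
    exact ((Polynomial.idealX k).valuation_lt_one_iff_mem X).mpr
      (by rw [Polynomial.idealX_span]; exact Ideal.mem_span_singleton_self _)
  have hXi : (RatFunc.X : RatFunc k)⁻¹ ∉ B := by
    intro h
    have h1 : v (RatFunc.X : RatFunc k)⁻¹ ≤ 1 := h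
    rw [map_inv₀] at h1
    have h2 : 0 < v (RatFunc.X : RatFunc k) :=
      zero_lt_iff.mpr ((Valuation.ne_zero_iff v).mpr RatFunc.X_ne_zero)
    exact absurd ((inv_le_one₀ h2).mp h1) (not_le.mpr hX)
  have hB : IsPlace k B := by
    refine ⟨fun h => hXi (by rw [h]; exact ValuationSubring.mem_top _), fun c => ?_⟩
    have h1 : algebraMap k (RatFunc k) c = algebraMap k[X] (RatFunc k) (C c) := rfl
    rw [h1]
    exact (Polynomial.idealX k).valuation_le_one (C c)
  obtain ⟨A, hA, hcomap⟩ := exists_place_extension (Ω := L) B hB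
  refine ⟨A, hA, ?_⟩
  have h1 : (tX k L)⁻¹ ∉ A := by
    intro h
    apply hXi
    rw [← hcomap, ValuationSubring.mem_comap, map_inv₀]
    exact h
  rw [← inv_inv (tX k L), ValuationSubring.inv_mem_nonunits_iff]
  exact Or.inr h1

theorem val_le_iff {F : Type} [Field F] (A : ValuationSubring F) {a b : F} (hb : b ≠ 0) :
    A.valuation a ≤ A.valuation b ↔ a / b ∈ A := by
  rw [← A.valuation_le_one_iff, map_div₀,
    div_le_one₀ (zero_lt_iff.mpr ((Valuation.ne_zero_iff _).mpr hb))]

theorem val_comap_eq {F L : Type} [Field F] [Field L] (i : F →+* L) (A : ValuationSubring L)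
    {a b : F} (ha : a ≠ 0) (hb : b ≠ 0)
    (h : (A.comap i).valuation a = (A.comap i).valuation b) :
    A.valuation (i a) = A.valuation (i b) := by
  apply le_antisymm
  · have h1 := (val_le_iff (A.comap i) hb).mp h.le
    rw [ValuationSubring.mem_comap, map_div₀] at h1
    exact (val_le_iff A ((map_ne_zero i).mpr hb)).mpr h1
  · have h1 := (val_le_iff (A.comap i) ha).mp h.ge
    rw [ValuationSubring.mem_comap, map_div₀] at h1
    exact (val_le_iff A ((map_ne_zero i).mpr ha)).mpr h1

variable {p n : ℕ}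

theorem deg_aux [Fact p.Prime] (hp5 : 5 ≤ p) (hn : 0 < n) {i : ℕ} (hi : i < n - 1) :
    p ^ i * (p ^ n + 1) - 2 * p ^ (n - 1) < p ^ (n - 1) * (p ^ n - 1) := by
  have hp0 : 0 < p := by omega
  have h1 : p ^ i * p ≤ p ^ (n - 1) := by
    rw [← pow_succ]
    exact Nat.pow_le_pow_right hp0 (by omega)
  have h2 : 1 ≤ p ^ i := Nat.one_le_pow _ _ hp0
  have h3 : 5 ≤ p ^ n := by
    calc 5 ≤ p := hp5
      _ = p ^ 1 := (pow_one p).symm
      _ ≤ p ^ n := Nat.pow_le_pow_right hp0 hn
  obtain ⟨Q, hQ⟩ : ∃ Q, p ^ n = Q + 1 := ⟨p ^ n - 1, by omega⟩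
  rw [hQ, Nat.add_sub_cancel]
  have h4 : p ^ i * 5 ≤ p ^ (n - 1) := le_trans (Nat.mul_le_mul_left _ hp5) h1
  have h5 : 4 ≤ Q := by omega
  have h6 : p ^ i * (Q + 1 + 1) < p ^ (n - 1) * Q + 2 * p ^ (n - 1) := by nlinarith
  have h7 : 0 < p ^ (n - 1) * Q := Nat.mul_pos (by omega) (by omega)
  omega

theorem low_aux [Fact p.Prime] (i : ℕ) :
    p ^ n + 1 - 2 * p ^ (n - 1) ≤ p ^ i * (p ^ n + 1) - 2 * p ^ (n - 1) := by
  have h2 : 1 ≤ p ^ i := Nat.one_le_pow _ _ (Fact.out : p.Prime).pos
  have h3 : p ^ n + 1 ≤ p ^ i * (p ^ n + 1) := Nat.le_mul_of_pos_left _ h2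
  omega

theorem natDegree_TP [Fact p.Prime] (hp5 : 5 ≤ p) (hn : 0 < n) {k : Type} [Field k] (c : ℕ → k) :
    (TP p n c).natDegree ≤ p ^ (n - 1) * (p ^ n - 1) := by
  unfold TP
  refine (natDegree_sub_le _ _).trans (max_le (natDegree_X_pow_le _) ?_)
  refine natDegree_sum_le_of_forall_le _ _ fun i hi => ?_
  refine (natDegree_C_mul_X_pow_le _ _).trans ?_
  exact (deg_aux hp5 hn (Finset.mem_range.mp hi)).le

theorem TP_ne_zero [Fact p.Prime] (hp5 : 5 ≤ p) (hn : 0 < n) {k : Type} [Field k] (c : ℕ → k) :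
    TP p n c ≠ 0 := by
  intro h
  have h1 := congrArg (fun P : k[X] => P.coeff (p ^ (n - 1) * (p ^ n - 1))) h
  simp only [TP, coeff_sub, coeff_X_pow, finsetSum_coeff, coeff_C_mul, coeff_zero] at h1
  rw [if_pos trivial, Finset.sum_eq_zero, sub_zero] at h1
  · exact one_ne_zero h1
  · intro i hi
    rw [if_neg (deg_aux hp5 hn (Finset.mem_range.mp hi)).ne', mul_zero]

theorem le_trailing [Fact p.Prime] (hp5 : 5 ≤ p) (hn : 0 < n) {k : Type} [Field k] (c : ℕ → k) :
    p ^ n + 1 - 2 * p ^ (n - 1) ≤ (TP p n c).natTrailingDegree := by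
  apply le_natTrailingDegree (TP_ne_zero hp5 hn c)
  apply X_pow_dvd_iff.mp
  have h0 : p ^ n + 1 - 2 * p ^ (n - 1) ≤ p ^ (n - 1) * (p ^ n - 1) := by
    have hp0 : 0 < p := by omega
    have h2 : 1 ≤ p ^ (n - 1) := Nat.one_le_pow _ _ hp0
    have h3 : 1 ≤ p ^ n := Nat.one_le_pow _ _ hp0
    obtain ⟨Q, hQ⟩ : ∃ Q, p ^ n = Q + 1 := ⟨p ^ n - 1, by omega⟩
    rw [hQ, Nat.add_sub_cancel]
    have : Q + 1 + 1 ≤ p ^ (n - 1) * Q + 2 * p ^ (n - 1) := by nlinarith
    omega
  unfold TP
  refine dvd_sub (pow_dvd_pow X h0) (Finset.dvd_sum fun i _ => ?_)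
  exact Dvd.dvd.mul_left (pow_dvd_pow X (low_aux i)) _

theorem numeric {p q m κ e r d g : ℕ} (hp5 : 5 ≤ p) (hq : q = p * m) (hm : 1 ≤ m)
    (hκ : q + 1 - 2 * m ≤ κ) (he : q * (q ^ 2 - 1) ≤ e) (hr : κ ≤ r) (hd : d ≤ m * (q - 1))
    (h : e * r = d * g) : 2 * (q ^ 2 - 1) ≤ g := by
  by_contra hcon
  push Not at hcon
  have hq5 : 5 * m ≤ q := by
    rw [hq]
    exact Nat.mul_le_mul_right _ hp5
  obtain ⟨s, hs⟩ : ∃ s, q + 1 = s + 2 * m := ⟨q + 1 - 2 * m, by omega⟩
  obtain ⟨t, ht⟩ : ∃ t, q = t + 1 := ⟨q - 1, by omega⟩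
  have hsr : s ≤ r := by omega
  have hD : q ^ 2 - 1 = t * (t + 2) := by
    rw [ht]
    have : (t + 1) ^ 2 = t * (t + 2) + 1 := by ring
    omega
  have hq1 : q - 1 = t := by omega
  rw [hD] at he hcon
  rw [hq1] at hd
  set D := t * (t + 2) with hDdef
  have ht4 : 4 ≤ t := by omega
  have hD0 : 0 < D := by positivity
  have h1 : q * D * s ≤ e * r := Nat.mul_le_mul he hsr
  have h2 : d * g ≤ m * t * g := Nat.mul_le_mul_right _ hd
  have h3 : m * t * g < m * t * (2 * D) := by
    apply Nat.mul_lt_mul_of_pos_left hcon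
    positivity
  have h4 : q * D * s < m * t * (2 * D) := by
    calc q * D * s ≤ e * r := h1
      _ = d * g := h
      _ ≤ m * t * g := h2
      _ < _ := h3
  have h5 : m * D * (p * s) < m * D * (2 * t) := by
    calc m * D * (p * s) = q * D * s := by
          rw [hq]
          ring
      _ < m * t * (2 * D) := h4
      _ = m * D * (2 * t) := by ring
  have h6 : p * s < 2 * t := Nat.lt_of_mul_lt_mul_left h5
  have h7 : p * s + 2 * q = p * (q + 1) := by
    rw [hs, hq]
    ring
  have h8 : 5 * (q + 1) ≤ p * (q + 1) := Nat.mul_le_mul_right _ hp5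
  omega

end Index

open Index Polynomial in
/-- `card_ge` with the statement of SL-5 (`immediate`) as the hypothesis `himm` -/
theorem card_ge_of {p n : ℕ} [Fact p.Prime] (hp5 : 5 ≤ p) (hn : 0 < n) {k L : Type} [Field k]
    [IsAlgClosed k] [CharP k p] [Field L] [Algebra k L] [Algebra (RatFunc k) L]
    [IsScalarTower k (RatFunc k) L] [FiniteDimensional (RatFunc k) L] [IsGalois (RatFunc k) L]
    (himm : ∀ {M F : Type} [Field M] [Field F] [Algebra k M] [Algebra k F] [Algebra M F]
      [IsScalarTower k M F] [FiniteDimensional M F] [IsGalois M F] (_ : FF k F)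
      (A : ValuationSubring F) (_ : IsPlace k A) (f : F) (_ : f ≠ 0)
      (_ : ∀ σ : F ≃ₐ[M] F, σ • A = A → σ f = f),
      ∃ g : M, g ≠ 0 ∧ A.valuation f = A.valuation (algebraMap M F g))
    (c : ℕ → k) (y0 y1 : L) (h0 : Rt (p ^ n) (pk k L (TP p n c)) y0)
    (h1 : Rt (p ^ n) (pk k L (TP p n c)) y1) (hd : dd (p ^ n) y0 y1 = 1) :
    2 * ((p ^ n) ^ 2 - 1) ≤ Nat.card (L ≃ₐ[RatFunc k] L) := by
  classical
  have hp0 : 0 < p := by omega
  have hpn1 : p ^ n = p * p ^ (n - 1) := by
    rw [← pow_succ']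
    congr 1
    omega
  have hm1 : 1 ≤ p ^ (n - 1) := Nat.one_le_pow _ _ hp0
  obtain ⟨A, hA, hXA⟩ := exists_place_zero k L
  -- the element `T` and the field `k(T)`
  let T : RatFunc k := algebraMap k[X] (RatFunc k) (TP p n c)
  have hT0 : TP p n c ≠ 0 := TP_ne_zero hp5 hn c
  have hκ := le_trailing hp5 hn c
  set κ := (TP p n c).natTrailingDegree with hκdef
  have hκ1 : 1 ≤ κ := by
    refine le_trans ?_ hκ
    rw [hpn1]
    have : 5 * p ^ (n - 1) ≤ p * p ^ (n - 1) := Nat.mul_le_mul_right _ hp5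
    omega
  have haev : ∀ P : k[X], pk k L P = aeval (tX k L) P := by
    intro P
    have h2 : aeval (RatFunc.X : RatFunc k) P = algebraMap k[X] (RatFunc k) P := by
      rw [← RatFunc.algebraMap_X, aeval_algebraMap_apply, aeval_X_left_apply]
    have h3 : pk k L P = algebraMap (RatFunc k) L (algebraMap k[X] (RatFunc k) P) := rfl
    rw [h3, ← h2]
    exact (aeval_algebraMap_apply L (RatFunc.X : RatFunc k) P).symm
  have hvT : A.valuation (algebraMap (RatFunc k) L T) = A.valuation (tX k L) ^ κ := by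
    have h2 : algebraMap (RatFunc k) L T = pk k L (TP p n c) := rfl
    rw [h2, haev]
    exact val_aeval A hA.2 hXA _ hT0
  have htX0 : tX k L ≠ 0 := (map_ne_zero (algebraMap (RatFunc k) L)).mpr RatFunc.X_ne_zero
  have hX1 : A.valuation (tX k L) < 1 := (ValuationSubring.mem_nonunits_iff A).mp hXA
  have hTn : algebraMap (RatFunc k) L T ∈ A.nonunits := by
    rw [ValuationSubring.mem_nonunits_iff, hvT]
    exact pow_lt_one' hX1 (by omega)
  have hTC : ¬ ∃ a, T = RatFunc.C a := by
    rintro ⟨a, ha⟩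
    have ha0 : a ≠ 0 := by
      rintro rfl
      rw [map_zero] at ha
      exact hT0 ((map_eq_zero_iff _ (RatFunc.algebraMap_injective k)).mp ha)
    have h2 : algebraMap (RatFunc k) L T = algebraMap k L a := by
      rw [ha, IsScalarTower.algebraMap_apply k (RatFunc k) L]
      rfl
    rw [h2, ValuationSubring.mem_nonunits_iff, PW.val_const A hA.2 _ ha0] at hTn
    exact lt_irrefl _ hTn
  have hTtr : Transcendental k T := RatFunc.transcendental_of_ne_C T hTC
  let K0 : IntermediateField k (RatFunc k) := IntermediateField.adjoin k {T}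
  let T' : K0 := ⟨T, IntermediateField.mem_adjoin_simple_self k T⟩
  have hT'tr : Transcendental k T' := by
    intro h
    exact hTtr ((isAlgebraic_algebraMap_iff (algebraMap K0 (RatFunc k)).injective).mpr h)
  have hK0 : IntermediateField.adjoin k {T'} = ⊤ := by
    rw [eq_top_iff]
    intro x _
    have h2 : (IntermediateField.adjoin k {T'}).map K0.val = K0 := by
      rw [IntermediateField.adjoin_map, Set.image_singleton]
      rfl
    have h3 : (x : RatFunc k) ∈ (IntermediateField.adjoin k {T'}).map K0.val := by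
      rw [h2]
      exact x.2
    obtain ⟨y, hy, hyx⟩ := h3
    have h4 : y = x := Subtype.ext hyx
    rw [← h4]
    exact hy
  have hTL : algebraMap K0 L T' = algebraMap (RatFunc k) L T := rfl
  have h0' : Rt (p ^ n) (algebraMap K0 L T') y0 := h0
  have h1' : Rt (p ^ n) (algebraMap K0 L T') y1 := h1
  let E : IntermediateField K0 L := IntermediateField.adjoin K0 {y0, y1}
  obtain ⟨hgal, hfin⟩ := isGalois_adjoin (k := k) hn T' y0 y1 h0' h1' hd
  have hdeg := finrank_ge hn T' hT'tr hK0 y0 y1 h0' h1' hd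
  have hdegT1 : Module.finrank K0 (RatFunc k) = (TP p n c).natDegree := by
    have h2 := RatFunc.finrank_eq_max_natDegree T
    rw [RatFunc.num_algebraMap, RatFunc.denom_algebraMap, natDegree_one, max_eq_left (Nat.zero_le _)]
      at h2
    exact h2
  have hdegT : Module.finrank K0 (RatFunc k) ≤ p ^ (n - 1) * (p ^ n - 1) := by
    rw [hdegT1]
    exact natDegree_TP hp5 hn c
  -- finiteness
  have hfinK : FiniteDimensional K0 (RatFunc k) := by
    apply Module.finite_of_finrank_pos
    rw [hdegT1]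
    exact lt_of_lt_of_le hκ1 (natTrailingDegree_le_natDegree _)
  have hfinL : FiniteDimensional K0 L := FiniteDimensional.trans K0 (RatFunc k) L
  have hfinE : FiniteDimensional E L := inferInstance
  have htowE : IsScalarTower k E L := IsScalarTower.of_algebraMap_eq fun _ => rfl
  -- valuations of the elements of `E`
  have hFF : FF k L := ff_of_algebraic k L
  have hval : ∀ f : E, f ≠ 0 → ∃ z : ℤ, A.valuation (algebraMap E L f) =
      A.valuation (tX k L) ^ (κ * z) := by
    intro f hf
    have hFE : FF k E := ff_sub hFF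
    let A' : ValuationSubring E := A.comap (algebraMap E L)
    have hTE : algebraMap E L (algebraMap K0 E T') = algebraMap (RatFunc k) L T := rfl
    have hTne : algebraMap (RatFunc k) L T ≠ 0 := by
      intro h2
      apply hTC
      refine ⟨0, ?_⟩
      rw [map_zero]
      exact (map_eq_zero _).mp h2
    have hTA : algebraMap (RatFunc k) L T ∈ A := A.nonunits_subset hTn
    have hA' : IsPlace k A' := by
      refine ⟨fun h2 => ?_, fun a => ?_⟩
      · have h3 : (algebraMap K0 E T')⁻¹ ∈ A' := by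
          rw [h2]
          exact ValuationSubring.mem_top _
        rw [ValuationSubring.mem_comap, map_inv₀, hTE] at h3
        have h4 := (A.valuation_le_one_iff _).mpr h3
        rw [map_inv₀] at h4
        have h5 : 0 < A.valuation (algebraMap (RatFunc k) L T) :=
          zero_lt_iff.mpr ((Valuation.ne_zero_iff _).mpr hTne)
        exact absurd ((inv_le_one₀ h5).mp h4)
          (not_le.mpr ((ValuationSubring.mem_nonunits_iff A).mp hTn))
      · rw [ValuationSubring.mem_comap, ← IsScalarTower.algebraMap_apply k E L]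
        exact hA.2 a
    have hy0 : y0 ∈ E := IntermediateField.subset_adjoin _ _ (by simp)
    have hy1 : y1 ∈ E := IntermediateField.subset_adjoin _ _ (by simp)
    have hfix : ∀ σ : E ≃ₐ[K0] E, σ • A' = A' → σ f = f := by
      intro σ hσ
      have hTA' : algebraMap K0 E T' ∈ A' := by
        rw [ValuationSubring.mem_comap, hTE]
        exact hTA
      have hr0 : Rt (p ^ n) (algebraMap K0 E T') (⟨y0, hy0⟩ : E) := Subtype.ext h0'
      have hr1 : Rt (p ^ n) (algebraMap K0 E T') (⟨y1, hy1⟩ : E) := Subtype.ext h1'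
      have e0 := fixed_of_rt hn hFE A' hA' T' hTA' σ hσ _ hr0
      have e1 := fixed_of_rt hn hFE A' hA' T' hTA' σ hσ _ hr1
      have h2 : (σ : E →ₐ[K0] E) = AlgHom.id K0 E := by
        apply IntermediateField.adjoin_algHom_ext
        intro x hx
        rcases hx with rfl | hx
        · exact e0
        · rw [Set.mem_singleton_iff] at hx
          subst hx
          exact e1
      exact congrArg (fun g : E →ₐ[K0] E => g f) h2
    obtain ⟨g, hg0, hg⟩ := himm hFE A' hA' f hf hfix
    have hgE : algebraMap K0 E g ≠ 0 := (_root_.map_ne_zero _).mpr hg0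
    have h2 := val_comap_eq (algebraMap E L) A hf hgE hg
    have h3 : algebraMap E L (algebraMap K0 E g) = algebraMap K0 L g := rfl
    obtain ⟨z, hz⟩ := val_adjoin A hA.2 T' hK0 hTn g hg0
    refine ⟨z, ?_⟩
    rw [h2, h3, hz, hTL, hvT, zpow_mul, zpow_natCast]
  have hram := le_finrank (E := E) A (tX k L) htX0 hXA κ hval
  have htow1 := Module.finrank_mul_finrank K0 E L
  have htow2 := Module.finrank_mul_finrank K0 (RatFunc k) L
  have hcard : Nat.card (L ≃ₐ[RatFunc k] L) = Module.finrank (RatFunc k) L :=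
    IsGalois.card_aut_eq_finrank _ _
  rw [hcard]
  exact numeric hp5 hpn1 hm1 hκ hdeg hram hdegT (htow1.trans htow2.symm)

end Pool.Agent.Helper54.SL
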